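import Mathlib

namespace Pool.Agent.Results.MP_3eafcc_gt.Wedge

open Set Filter Topology

/-- functions continuous on some dense cozero set -/
def T (X : Type) [TopologicalSpace X] : Set (X → ℝ) :=
  {f | ∃ g : C(X, ℝ), Dense {x | g x ≠ 0} ∧ ContinuousOn f {x | g x ≠ 0}}

abbrev Z := CofiniteTopology ℕ

abbrev W := {p : ℝ × Z // p.1 = 0 ∨ p.2 = default}

theorem const (h : Z → ℝ) (hh : Continuous h) (z : Z) : h z = h default :=
  ((PreirreducibleSpace.isPreirreducible_univ.image h hh.continuousOn).subsingleton)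
    ⟨z, trivial, rfl⟩ ⟨_, trivial, rfl⟩

theorem result : ∃ (X : Type) (_ : TopologicalSpace X), T1Space X ∧
    ∃ f ∈ T X, (¬∃ h ∈ T X, f * h = 1) ∧ ∀ h ∈ T X, f * h = 0 → h = 0 := by
  refine ⟨W, inferInstance, inferInstance, fun p => p.1.1,
    ⟨1, by simp, Continuous.continuousOn (by fun_prop)⟩, ?_, ?_⟩
  · rintro ⟨h, -, e⟩
    simpa using congrFun e ⟨(0, default), .inl rfl⟩
  rintro h ⟨g, hd, hc⟩ e
  let i : Z → W := fun z => ⟨(0, z), .inl rfl⟩
  let j : ℝ → W := fun t => ⟨(t, default), .inr rfl⟩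
  have ci : Continuous i := by fun_prop
  have cj : Continuous j := by fun_prop
  have hj : ∀ t, t ≠ 0 → h (j t) = 0 := fun t ht => by simpa [j, ht] using congrFun e (j t)
  have g0 : ∀ z, g (i z) ≠ 0 := by
    obtain ⟨z, hz⟩ := exists_ne (default : Z)
    obtain ⟨⟨⟨t, y⟩, hp⟩, h1, h2⟩ := hd.inter_open_nonempty {p : W | p.1.2 ≠ default}
      (isOpen_ne.preimage (f := fun p : W => p.1.2) (by fun_prop)) ⟨i z, hz⟩
    obtain rfl : t = 0 := hp.resolve_right h1
    intro z
    exact ((const _ (g.continuous.comp ci) z).trans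
      (const _ (g.continuous.comp ci) y).symm).trans_ne h2
  have h0 : h (j 0) = 0 := by
    have a : ContinuousAt h (j 0) :=
      hc.continuousAt ((isOpen_ne_fun g.continuous continuous_const).mem_nhds (g0 default))
    refine tendsto_nhds_unique ((a.comp cj.continuousAt).tendsto.mono_left
      (nhdsWithin_le_nhds (s := {0}ᶜ))) (tendsto_const_nhds.congr' ?_)
    filter_upwards [self_mem_nhdsWithin] with t ht using (hj t ht).symm
  funext ⟨⟨t, z⟩, hp⟩
  rcases eq_or_ne t 0 with rfl | ht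
  · exact (const _ (hc.comp_continuous ci g0) z).trans h0
  · obtain rfl : z = default := hp.resolve_left ht
    exact hj t ht

end Pool.Agent.Results.MP_3eafcc_gt.Wedge
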